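import Pool.Agent.W313.HB.Stm2
import Pool.Agent.W313.BMX.Alg

/-!
# HB-TYPE: local points come from residue classes with a bounded modulus
-/

set_option autoImplicit false

namespace Pool.Agent.W554.HB

open Finset Pool.Agent.W313.BMX Pool.Agent.W313.HB

section padic

variable {p : ℕ} [hp : Fact p.Prime]

theorem norm_four : ‖(4 : ℚ_[p])‖ = ‖(2 : ℚ_[p])‖ ^ 2 := by
  rw [← norm_pow]; norm_num

theorem norm_four_le : ‖(4 : ℚ_[p])‖ ≤ 1 := by
  have := Padic.norm_int_le_one (p := p) 4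
  simpa using this

/-- elements near `1` are squares -/
theorem sq_near_one (u : ℚ_[p]) (hu : ‖u - 1‖ < ‖(4 : ℚ_[p])‖) : ∃ c : ℚ_[p], c ≠ 0 ∧ u = c ^ 2 := by
  have h1 : ‖u - 1‖ < 1 := hu.trans_le norm_four_le
  have hun : ‖u‖ ≤ 1 := by
    have h2 := Padic.nonarchimedean (u - 1) 1
    rw [sub_add_cancel, norm_one] at h2
    exact h2.trans (max_le h1.le le_rfl)
  have hu0 : u ≠ 0 := by
    rintro rfl
    rw [zero_sub, norm_neg, norm_one] at h1
    exact lt_irrefl _ h1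
  set v : ℤ_[p] := ⟨u, hun⟩ with hv
  set F : Polynomial ℤ_[p] := Polynomial.X ^ 2 - Polynomial.C v with hF
  have e1 : F.aeval (1 : ℤ_[p]) = 1 - v := by simp [hF]
  have e2 : F.derivative.aeval (1 : ℤ_[p]) = 2 := by
    simp [hF]
    norm_num
  obtain ⟨z, hz, -⟩ := hensels_lemma (p := p) (F := F) (a := (1 : ℤ_[p])) (by
    rw [e1, e2]
    have a1 : ‖(1 - v : ℤ_[p])‖ = ‖u - 1‖ := by
      rw [PadicInt.norm_def, ← norm_neg]
      congr 1
      push_cast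
      rw [hv]
      ring
    have a2 : ‖(2 : ℤ_[p])‖ = ‖(2 : ℚ_[p])‖ := by
      rw [PadicInt.norm_def]
      rfl
    rw [a1, a2, ← norm_four]
    exact hu)
  have e : F.aeval z = z ^ 2 - v := by simp [hF]
  rw [e, sub_eq_zero] at hz
  have h3 : (z : ℚ_[p]) ^ 2 = u := by
    have := congrArg (fun x : ℤ_[p] => (x : ℚ_[p])) hz
    simpa [hv] using this
  refine ⟨z, ?_, h3.symm⟩
  intro h0
  rw [h0] at h3
  exact hu0 (by rw [← h3]; ring)

theorem near {A B : ℚ_[p]} (hB : B ≠ 0) (h : ‖A - B‖ < ‖(4 : ℚ_[p])‖ * ‖B‖) :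
    ∃ c : ℚ_[p], c ≠ 0 ∧ A = B * c ^ 2 := by
  have hBn : 0 < ‖B‖ := norm_pos_iff.2 hB
  obtain ⟨c, hc, hc2⟩ := sq_near_one (A / B) (by
    have : A / B - 1 = (A - B) / B := by field_simp
    rw [this, norm_div, div_lt_iff₀ hBn]
    exact h)
  refine ⟨c, hc, ?_⟩
  rw [← hc2]
  field_simp

theorem p_two : (2 : ℝ) ≤ p := by exact_mod_cast hp.out.two_le

theorem norm_four_ge : (p : ℝ) ^ (-2 : ℤ) ≤ ‖(4 : ℚ_[p])‖ := by
  by_contra hcon
  push Not at hcon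
  have h1 : ‖((4 : ℤ) : ℚ_[p])‖ ≤ (p : ℝ) ^ (-(3 : ℕ) : ℤ) := by
    rw [Padic.norm_le_pow_iff_norm_lt_pow_add_one]
    have : ((-((3 : ℕ) : ℤ) + 1 : ℤ)) = -2 := by norm_num
    rw [this]
    simpa using hcon
  rw [Padic.norm_int_le_pow_iff_dvd] at h1
  have h2 := Int.le_of_dvd (by norm_num) h1
  have h3 : (2 : ℤ) ≤ p := by exact_mod_cast hp.out.two_le
  have h4 : (8 : ℤ) ≤ (p : ℤ) ^ 3 := by
    calc (8 : ℤ) = 2 ^ 3 := by norm_num
      _ ≤ (p : ℤ) ^ 3 := pow_le_pow_left₀ (by norm_num) h3 3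
  linarith

theorem norm_sqf {a : ℤ} (ha : Squarefree a) : (p : ℝ) ^ (-1 : ℤ) ≤ ‖(a : ℚ_[p])‖ := by
  by_contra hcon
  push Not at hcon
  have h1 : ‖((a : ℤ) : ℚ_[p])‖ ≤ (p : ℝ) ^ (-(2 : ℕ) : ℤ) := by
    rw [Padic.norm_le_pow_iff_norm_lt_pow_add_one]
    have : ((-((2 : ℕ) : ℤ) + 1 : ℤ)) = -1 := by norm_num
    rw [this]
    exact hcon
  rw [Padic.norm_int_le_pow_iff_dvd] at h1
  have h2 : (p : ℤ) * p ∣ a := by
    rw [← sq]
    exact_mod_cast h1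
  have h3 := ha _ h2
  rw [Int.isUnit_iff] at h3
  have h4 : (2 : ℤ) ≤ p := by exact_mod_cast hp.out.two_le
  omega

theorem near_sqf {a a1 : ℤ} (ha1 : Squarefree a1)
    (h : (a : ZMod (p ^ 4)) = (a1 : ZMod (p ^ 4))) : ∃ c : ℚ_[p], c ≠ 0 ∧ (a : ℚ_[p]) = a1 * c ^ 2 := by
  have hp0 : (0 : ℝ) < p := by have := p_two (p := p); linarith
  apply near
  · intro h0
    have h1 : a1 = 0 := by exact_mod_cast h0
    exact ha1.ne_zero h1
  · have h1 : ‖((a - a1 : ℤ) : ℚ_[p])‖ ≤ (p : ℝ) ^ (-(4 : ℕ) : ℤ) := by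
      rw [Padic.norm_int_le_pow_iff_dvd]
      rw [eq_comm, ZMod.intCast_eq_intCast_iff_dvd_sub] at h
      exact h
    push_cast at h1
    refine h1.trans_lt ?_
    have h2 := norm_four_ge (p := p)
    have h3 := norm_sqf (p := p) ha1
    have h4 : (p : ℝ) ^ (-4 : ℤ) < (p : ℝ) ^ (-2 : ℤ) * (p : ℝ) ^ (-1 : ℤ) := by
      rw [← zpow_add₀ hp0.ne']
      apply zpow_lt_zpow_right₀
      · have := p_two (p := p); linarith
      · norm_num
    refine h4.trans_le ?_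
    apply mul_le_mul h2 h3 (by positivity) (norm_nonneg _)

/-- homogeneity -/
theorem aeval_smul' {n D : ℕ} {G : MvPolynomial (Fin (n + 1)) ℤ} (hG : G.IsHomogeneous D)
    (c : ℚ_[p]) (x : Fin (n + 1) → ℚ_[p]) :
    MvPolynomial.aeval (fun i => c * x i) G = c ^ D * MvPolynomial.aeval x G := by
  rw [MvPolynomial.aeval_def, MvPolynomial.aeval_def, MvPolynomial.eval₂_eq,
    MvPolynomial.eval₂_eq, Finset.mul_sum]
  refine Finset.sum_congr rfl fun d hd => ?_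
  have hD := hG.degree_eq_sum_deg_support hd
  simp only [mul_pow]
  rw [Finset.prod_mul_distrib, Finset.prod_pow_eq_pow_sum, ← hD]
  ring

theorem eval_cast {n : ℕ} (G : MvPolynomial (Fin (n + 1)) ℤ) (x : Fin (n + 1) → ℤ) :
    ((MvPolynomial.eval x G : ℤ) : ℚ_[p]) =
      MvPolynomial.aeval (fun i => ((x i : ℤ) : ℚ_[p])) G := by
  have h := MvPolynomial.eval₂_comp_left (Int.castRingHom ℚ_[p]) (RingHom.id ℤ) x G
  rw [MvPolynomial.aeval_def]
  exact h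

/-- continuity -/
theorem cont {n : ℕ} (G : MvPolynomial (Fin (n + 1)) ℤ) (y : Fin (n + 1) → ℤ_[p])
    (hy : MvPolynomial.aeval (fun i => (y i : ℚ_[p])) G ≠ 0) : ∃ K : ℕ, ∀ K', K ≤ K' →
    ∀ x : Fin (n + 1) → ℤ_[p], (∀ i, ‖x i - y i‖ ≤ (p : ℝ) ^ (-(K' : ℤ))) →
    ∃ c : ℚ_[p], c ≠ 0 ∧ MvPolynomial.aeval (fun i => (x i : ℚ_[p])) G =
      MvPolynomial.aeval (fun i => (y i : ℚ_[p])) G * c ^ 2 := by
  have hp2 := p_two (p := p)
  have hc : Continuous (fun x : Fin (n + 1) → ℤ_[p] =>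
      MvPolynomial.aeval (fun i => (x i : ℚ_[p])) G) := by
    have e : (fun x : Fin (n + 1) → ℤ_[p] => MvPolynomial.aeval (fun i => (x i : ℚ_[p])) G) =
        fun x => ∑ d ∈ G.support, algebraMap ℤ ℚ_[p] (G.coeff d) *
          ∏ i ∈ d.support, ((x i : ℚ_[p])) ^ d i := by
      funext x
      rw [MvPolynomial.aeval_def, MvPolynomial.eval₂_eq]
    rw [e]
    have hcc : Continuous (fun z : ℤ_[p] => (z : ℚ_[p])) := continuous_subtype_val
    refine continuous_finsetSum _ fun d _ => ?_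
    have hpr : Continuous (fun x : Fin (n + 1) → ℤ_[p] => ∏ i ∈ d.support, ((x i : ℚ_[p])) ^ d i) :=
      continuous_finsetProd _ fun i _ => (hcc.comp (continuous_apply i)).pow _
    exact hpr.const_mul _
  have hpos : 0 < ‖(4 : ℚ_[p])‖ * ‖MvPolynomial.aeval (fun i => (y i : ℚ_[p])) G‖ := by
    apply mul_pos
    · rw [norm_pos_iff]; norm_num
    · exact norm_pos_iff.2 hy
  obtain ⟨δ, hδ, hδ2⟩ := Metric.continuous_iff.1 hc y _ hpos
  obtain ⟨K, hK⟩ := exists_pow_lt_of_lt_one hδ (y := (p : ℝ)⁻¹) (by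
    rw [inv_lt_one₀ (by linarith)]; linarith)
  refine ⟨K, fun K' hK' x hx => ?_⟩
  apply near hy
  have h1 := hδ2 x (by
    rw [dist_pi_lt_iff hδ]
    intro i
    rw [dist_eq_norm]
    refine (hx i).trans_lt (lt_of_le_of_lt ?_ hK)
    rw [zpow_neg, zpow_natCast, inv_pow]
    apply inv_anti₀ (by positivity)
    exact pow_le_pow_right₀ (by linarith) hK')
  rw [dist_eq_norm] at h1
  exact h1

/-- a point with integral coordinates -/
theorem integral_point {n : ℕ} (x : Fin (n + 1) → ℚ_[p]) : ∃ (c : ℚ_[p]) (y : Fin (n + 1) → ℤ_[p]),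
    c ≠ 0 ∧ ∀ i, (y i : ℚ_[p]) = c * x i := by
  obtain ⟨i, hi⟩ := Finite.exists_max (fun i => ‖x i‖)
  by_cases h0 : x i = 0
  · refine ⟨1, fun _ => 0, one_ne_zero, fun j => ?_⟩
    have h1 := hi j
    simp only [h0, norm_zero] at h1
    have h2 : x j = 0 := norm_le_zero_iff.1 h1
    rw [h2]; simp
  · have hn : 0 < ‖x i‖ := norm_pos_iff.2 h0
    refine ⟨(x i)⁻¹, fun j => ⟨(x i)⁻¹ * x j, ?_⟩, inv_ne_zero h0, fun j => rfl⟩
    rw [norm_mul, norm_inv, inv_mul_le_iff₀ hn, mul_one]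
    exact hi j

end padic

theorem type_ : S_TYPE := by
  intro n d1 d2 G1 G2 hG1 hG2 p hp
  have hp2 := p_two (p := p)
  have : NeZero (p ^ 4) := ⟨pow_ne_zero 4 hp.out.ne_zero⟩
  have key : ∀ ij : ZMod (p ^ 4) × ZMod (p ^ 4), ∃ K : ℕ, ∀ K', K ≤ K' → ∀ a b : ℤ,
      Squarefree a → Squarefree b → (a : ZMod (p ^ 4)) = ij.1 → (b : ZMod (p ^ 4)) = ij.2 →
      HasP G1 G2 a b ℚ_[p] → ∃ x0 : Fin (n + 1) → ℕ,
      (∀ i, x0 i < p ^ K') ∧ ∀ x : Fin (n + 1) → ℤ, (∀ i, ((p ^ K' : ℕ) : ℤ) ∣ x i - x0 i) →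
        MvPolynomial.eval x G1 ≠ 0 ∧ MvPolynomial.eval x G2 ≠ 0 ∧
        Splits ((((a * MvPolynomial.eval x G1 : ℤ))) : ℚ_[p])
          ((((b * MvPolynomial.eval x G2 : ℤ))) : ℚ_[p]) := by
    rintro ⟨i, j⟩
    by_cases hP : ∃ a1 b1 : ℤ, Squarefree a1 ∧ Squarefree b1 ∧ (a1 : ZMod (p ^ 4)) = i ∧
        (b1 : ZMod (p ^ 4)) = j ∧ HasP G1 G2 a1 b1 ℚ_[p]
    · obtain ⟨a1, b1, ha1, hb1, hai, hbj, x1, hx1, hx2, hx3⟩ := hP
      obtain ⟨c, y, hc, hy⟩ := integral_point x1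
      have e : (fun i => (y i : ℚ_[p])) = fun i => c * x1 i := funext hy
      have g1 : MvPolynomial.aeval (fun i => (y i : ℚ_[p])) G1 =
          MvPolynomial.aeval x1 G1 * (c ^ d1) ^ 2 := by
        rw [e, aeval_smul' hG1]; ring
      have g2 : MvPolynomial.aeval (fun i => (y i : ℚ_[p])) G2 =
          MvPolynomial.aeval x1 G2 * (c ^ d2) ^ 2 := by
        rw [e, aeval_smul' hG2]; ring
      have n1 : MvPolynomial.aeval (fun i => (y i : ℚ_[p])) G1 ≠ 0 := by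
        rw [g1]; exact mul_ne_zero hx1 (pow_ne_zero _ (pow_ne_zero _ hc))
      have n2 : MvPolynomial.aeval (fun i => (y i : ℚ_[p])) G2 ≠ 0 := by
        rw [g2]; exact mul_ne_zero hx2 (pow_ne_zero _ (pow_ne_zero _ hc))
      obtain ⟨K1, hK1⟩ := cont G1 y n1
      obtain ⟨K2, hK2⟩ := cont G2 y n2
      refine ⟨max K1 K2, fun K' hK' a b ha hb hai' hbj' _ => ?_⟩
      have l1 : K1 ≤ K' := (le_max_left _ _).trans hK'
      have l2 : K2 ≤ K' := (le_max_right _ _).trans hK'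
      refine ⟨fun i => (y i).appr K', fun i => PadicInt.appr_lt _ _, fun x hx => ?_⟩
      have hxy : ∀ i, ‖((x i : ℤ) : ℤ_[p]) - y i‖ ≤ (p : ℝ) ^ (-(K' : ℤ)) := by
        intro i
        rw [PadicInt.norm_le_pow_iff_mem_span_pow]
        have s1 := PadicInt.appr_spec K' (y i)
        have s2 : ((x i : ℤ) : ℤ_[p]) - ((y i).appr K' : ℤ_[p]) ∈
            Ideal.span {(p : ℤ_[p]) ^ K'} := by
          rw [Ideal.mem_span_singleton]
          obtain ⟨k, hk⟩ := hx i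
          refine ⟨(k : ℤ_[p]), ?_⟩
          have := congrArg (fun z : ℤ => (z : ℤ_[p])) hk
          push_cast at this
          exact this
        have s3 : ((x i : ℤ) : ℤ_[p]) - y i = (((x i : ℤ) : ℤ_[p]) - ((y i).appr K' : ℤ_[p])) -
            (y i - ((y i).appr K' : ℤ_[p])) := by ring
        rw [s3]
        exact Ideal.sub_mem _ s2 s1
      obtain ⟨c1, hc1, k1⟩ := hK1 K' l1 (fun i => ((x i : ℤ) : ℤ_[p])) hxy
      obtain ⟨c2, hc2, k2⟩ := hK2 K' l2 (fun i => ((x i : ℤ) : ℤ_[p])) hxy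
      have q1 : ((MvPolynomial.eval x G1 : ℤ) : ℚ_[p]) =
          MvPolynomial.aeval (fun i => (y i : ℚ_[p])) G1 * c1 ^ 2 := by
        rw [eval_cast, ← k1]
        simp only [PadicInt.coe_intCast]
      have q2 : ((MvPolynomial.eval x G2 : ℤ) : ℚ_[p]) =
          MvPolynomial.aeval (fun i => (y i : ℚ_[p])) G2 * c2 ^ 2 := by
        rw [eval_cast, ← k2]
        simp only [PadicInt.coe_intCast]
      obtain ⟨e1, he1, f1⟩ := near_sqf (p := p) ha1 (hai'.trans hai.symm)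
      obtain ⟨e2, he2, f2⟩ := near_sqf (p := p) hb1 (hbj'.trans hbj.symm)
      refine ⟨?_, ?_, ?_⟩
      · intro h0
        rw [h0, Int.cast_zero] at q1
        exact (mul_ne_zero n1 (pow_ne_zero _ hc1)) q1.symm
      · intro h0
        rw [h0, Int.cast_zero] at q2
        exact (mul_ne_zero n2 (pow_ne_zero _ hc2)) q2.symm
      · rw [Int.cast_mul, Int.cast_mul, q1, q2, f1, f2, g1, g2]
        have r1 : (a1 : ℚ_[p]) * e1 ^ 2 * (MvPolynomial.aeval x1 G1 * (c ^ d1) ^ 2 * c1 ^ 2) =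
            ((a1 : ℚ_[p]) * MvPolynomial.aeval x1 G1) * (e1 * c ^ d1 * c1) ^ 2 := by ring
        have r2 : (b1 : ℚ_[p]) * e2 ^ 2 * (MvPolynomial.aeval x1 G2 * (c ^ d2) ^ 2 * c2 ^ 2) =
            ((b1 : ℚ_[p]) * MvPolynomial.aeval x1 G2) * (e2 * c ^ d2 * c2) ^ 2 := by ring
        rw [r1, r2, splits_mul_sq (mul_ne_zero (mul_ne_zero he1 (pow_ne_zero _ hc)) hc1),
          splits_comm, splits_mul_sq (mul_ne_zero (mul_ne_zero he2 (pow_ne_zero _ hc)) hc2),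
          splits_comm]
        exact hx3
    · refine ⟨0, fun K' _ a b ha hb hai hbj hH => ?_⟩
      exact absurd ⟨a, b, ha, hb, hai, hbj, hH⟩ hP
  choose K hK using key
  refine ⟨univ.sup K, fun a b ha hb hH => ?_⟩
  exact hK (a, b) _ (Finset.le_sup (mem_univ _)) a b ha hb rfl rfl hH

end Pool.Agent.W554.HB
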